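import Pool.Agent.E8helper43.ER.Stm

set_option autoImplicit false

/-!
# Project ER: approximation of finite sets of real numbers
-/

namespace Pool.Agent.E8helper25.ER

open Finset
open Pool.Agent.E8helper43.ER

theorem shD_self (n k : ℕ) (a : ℕ → ℝ) (i : ℕ) : shD n k a i i = 0 := by
  unfold shD
  exact sum_eq_zero fun l _ => by ring

theorem shD_comm (n k : ℕ) (a : ℕ → ℝ) (i j : ℕ) : shD n k a i j = shD n k a j i := by
  unfold shD
  exact sum_congr rfl fun l _ => by ring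

/-- S_LINE -/
theorem t_LINE (h1 : S_SHIFT) (h2 : S_TENT) : S_LINE := by
  intro ι _ t ε hε
  obtain ⟨T, hT0, hT⟩ : ∃ T : ℝ, 0 ≤ T ∧ ∀ i, |t i| ≤ T := by
    obtain ⟨B, hB⟩ := (Set.finite_range fun i => |t i|).bddAbove
    refine ⟨max B 0, le_max_right _ _, fun i => ?_⟩
    exact (hB ⟨i, rfl⟩).trans (le_max_left _ _)
  set δ : ℝ := min 1 (ε / (2 * (4 * T + 1))) with hδ
  have hδ0 : 0 < δ := lt_min one_pos (by positivity)
  have hδ1 : δ ≤ 1 := min_le_left _ _
  have hδ2 : δ * (4 * T + 1) ≤ ε / 2 := by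
    have h3 : δ ≤ ε / (2 * (4 * T + 1)) := min_le_right _ _
    have h4 : 0 < 4 * T + 1 := by linarith
    calc δ * (4 * T + 1) ≤ ε / (2 * (4 * T + 1)) * (4 * T + 1) :=
          mul_le_mul_of_nonneg_right h3 h4.le
      _ = ε / 2 := by field_simp
  have hs0 : ∀ i, 0 ≤ t i + T := fun i => by
    have := (abs_le.1 (hT i)).1
    linarith
  have hs1 : ∀ i, t i + T ≤ 2 * T := fun i => by
    have := (abs_le.1 (hT i)).2
    linarith
  set nn : ι → ℕ := fun i => ⌊(t i + T) / δ⌋₊ with hnn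
  set n : ℕ := ⌊2 * T / δ⌋₊ with hn
  have hle : ∀ i, nn i ≤ n := fun i =>
    Nat.floor_mono (div_le_div_of_nonneg_right (hs1 i) hδ0.le)
  have hfl1 : ∀ i, δ * (nn i : ℝ) ≤ t i + T := by
    intro i
    have := Nat.floor_le (div_nonneg (hs0 i) hδ0.le)
    rw [le_div_iff₀ hδ0] at this
    linarith
  have hfl2 : ∀ i, t i + T < δ * (nn i : ℝ) + δ := by
    intro i
    have := Nat.lt_floor_add_one ((t i + T) / δ)
    rw [div_lt_iff₀ hδ0] at this
    linarith
  obtain ⟨k, a, w, hw, ha, hA⟩ := h2 n (ε / (2 * δ ^ 2)) (by positivity)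
  refine ⟨fun i j => (δ ^ 2 * w) * shD n k a (nn i) (nn j), ?_, ?_, ?_, ?_⟩
  · have h3 := (h1 n k a ha).comp fun i : ι => (⟨nn i, Nat.lt_succ_of_le (hle i)⟩ : Fin (n + 1))
    exact h3.smul (mul_nonneg (sq_nonneg _) hw)
  · intro i
    simp only
    rw [shD_self, mul_zero]
  · intro i j
    simp only
    rw [shD_comm]
  · intro i j
    simp only
    have h3 := hA (nn i) (nn j) (hle i) (hle j)
    have h4 : |δ ^ 2 * w * shD n k a (nn i) (nn j) - δ ^ 2 * ((nn i : ℝ) - nn j) ^ 2| ≤ ε / 2 := by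
      have e1 : δ ^ 2 * w * shD n k a (nn i) (nn j) - δ ^ 2 * ((nn i : ℝ) - nn j) ^ 2 =
        δ ^ 2 * (w * shD n k a (nn i) (nn j) - ((nn i : ℝ) - nn j) ^ 2) := by ring
      rw [e1, abs_mul, abs_of_nonneg (sq_nonneg δ)]
      calc δ ^ 2 * |w * shD n k a (nn i) (nn j) - ((nn i : ℝ) - nn j) ^ 2| ≤
          δ ^ 2 * (ε / (2 * δ ^ 2)) := mul_le_mul_of_nonneg_left h3 (sq_nonneg _)
        _ = ε / 2 := by field_simp
    have h5 : |δ ^ 2 * ((nn i : ℝ) - nn j) ^ 2 - (t i - t j) ^ 2| ≤ ε / 2 := by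
      have a1 := hfl1 i
      have a2 := hfl2 i
      have a3 := hfl1 j
      have a4 := hfl2 j
      have b1 := hs0 i
      have b2 := hs0 j
      have b3 := hs1 i
      have b4 := hs1 j
      set x : ℝ := δ * ((nn i : ℝ) - nn j) with hx
      set y : ℝ := t i - t j with hy
      have c1 : |x - y| ≤ δ := by
        rw [hx, hy, abs_le]
        constructor <;> nlinarith
      have c2 : |y| ≤ 2 * T := by
        rw [hy, abs_le]
        constructor <;> linarith
      have c3 : |x + y| ≤ 4 * T + δ := by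
        have e2 : x + y = (x - y) + 2 * y := by ring
        rw [e2]
        calc |(x - y) + 2 * y| ≤ |x - y| + |2 * y| := abs_add_le _ _
          _ = |x - y| + 2 * |y| := by rw [abs_mul, abs_of_pos (by norm_num : (0 : ℝ) < 2)]
          _ ≤ 4 * T + δ := by linarith
      have e3 : δ ^ 2 * ((nn i : ℝ) - nn j) ^ 2 - y ^ 2 = (x - y) * (x + y) := by
        rw [hx]
        ring
      rw [e3, abs_mul]
      calc |x - y| * |x + y| ≤ δ * (4 * T + δ) :=
            mul_le_mul c1 c3 (abs_nonneg _) hδ0.le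
        _ ≤ δ * (4 * T + 1) := mul_le_mul_of_nonneg_left (by linarith) hδ0.le
        _ ≤ ε / 2 := hδ2
    calc |δ ^ 2 * w * shD n k a (nn i) (nn j) - (t i - t j) ^ 2|
        = |(δ ^ 2 * w * shD n k a (nn i) (nn j) - δ ^ 2 * ((nn i : ℝ) - nn j) ^ 2) +
          (δ ^ 2 * ((nn i : ℝ) - nn j) ^ 2 - (t i - t j) ^ 2)| := by
          congr 1
          ring
      _ ≤ _ := abs_add_le _ _
      _ ≤ ε := by linarith

end Pool.Agent.E8helper25.ER
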